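import Pool.Agent.helper76.FP.Spec
import Pool.Agent.helper76.DP.MOD

/-!
# Project FP (MP_bf63dc_nt), row MDU: the data of the counting argument
-/

set_option autoImplicit false

namespace Pool.Agent.FP

open Finset
open Pool.Agent.FR (mean PRJ_add PRJ_sub PRJ_mul PRJ_sum PRJ_mono PRJ_nonneg PRJ_const PRJ_abs PRJ_le_const EXC_cop EXC_dvd)
open Pool.Agent.AT (Qk Pair)
open Pool.Agent.HF (Om TC)
open Pool.Agent.DP (Fm PrE CORE2_stmt Fm_bound MO_mono_const)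

theorem fa_bound (r : ℕ × ℕ) (c : ℤ) : 0 ≤ fa r c ∧ fa r c ≤ 1 := by
  unfold fa
  split_ifs <;> norm_num

theorem rd_pos (s t : ℕ) (hs : 1 ≤ s) (ht : 1 ≤ t) : 1 ≤ (rd s t).1 ∧ 1 ≤ (rd s t).2 := by
  have hg : 0 < Nat.gcd s t := Nat.gcd_pos_of_pos_left _ hs
  exact ⟨Nat.div_pos (Nat.le_of_dvd ht (Nat.gcd_dvd_right s t)) hg, Nat.div_pos (Nat.le_of_dvd hs (Nat.gcd_dvd_left s t)) hg⟩

theorem rd_le (s t m : ℕ) (hs : s ≤ m) (ht : t ≤ m) : (rd s t).1 ≤ m ∧ (rd s t).2 ≤ m :=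
  ⟨(Nat.div_le_self _ _).trans ht, (Nat.div_le_self _ _).trans hs⟩

theorem rd_cop (s t : ℕ) (hs : 1 ≤ s) : Nat.Coprime (rd s t).1 (rd s t).2 := by
  have hg : 0 < Nat.gcd s t := Nat.gcd_pos_of_pos_left _ hs
  exact (Nat.coprime_div_gcd_div_gcd hg).symm

open Classical in
/-- an enumeration of the bad pairs -/
theorem MDU_pq {k : ℕ} (hk : 1 ≤ k) (ε : ℝ) (s : Fin k → ℕ) (hs : BadT ε s) : ∃ p q : Fin k × Fin k → Fin k, (∀ e, p e ≠ q e) ∧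
    (∀ e, ¬ GoodS ε (rd (s (p e)) (s (q e))).1 (rd (s (p e)) (s (q e))).2) ∧ ∀ S : Finset (Fin k), (∀ e, ¬ (p e ∈ S ∧ q e ∈ S)) → 4 * #S ≤ k := by
  obtain ⟨i, -, j, -, hij, hb⟩ := hs univ (by rw [card_univ, Fintype.card_fin]; omega)
  refine ⟨fun e => if e.1 ≠ e.2 ∧ ¬ GoodS ε (rd (s e.1) (s e.2)).1 (rd (s e.1) (s e.2)).2 then e.1 else i,
    fun e => if e.1 ≠ e.2 ∧ ¬ GoodS ε (rd (s e.1) (s e.2)).1 (rd (s e.1) (s e.2)).2 then e.2 else j, ?_, ?_, ?_⟩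
  · intro e
    dsimp only
    by_cases h : e.1 ≠ e.2 ∧ ¬ GoodS ε (rd (s e.1) (s e.2)).1 (rd (s e.1) (s e.2)).2
    · rw [if_pos h, if_pos h]
      exact h.1
    · rw [if_neg h, if_neg h]
      exact hij
  · intro e
    dsimp only
    by_cases h : e.1 ≠ e.2 ∧ ¬ GoodS ε (rd (s e.1) (s e.2)).1 (rd (s e.1) (s e.2)).2
    · rw [if_pos h, if_pos h]
      exact h.2
    · rw [if_neg h, if_neg h]
      exact hb
  · intro S hS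
    by_contra hcon
    push Not at hcon
    obtain ⟨a, ha, b, hb', hab, hbad⟩ := hs S hcon
    apply hS (a, b)
    have h : (a, b).1 ≠ (a, b).2 ∧ ¬ GoodS ε (rd (s (a, b).1) (s (a, b).2)).1 (rd (s (a, b).1) (s (a, b).2)).2 := ⟨hab, hbad⟩
    dsimp only
    rw [if_pos h, if_pos h]
    exact ⟨ha, hb'⟩

/-- the kernel -/
noncomputable def BU (s₁ s₂ D D' l : ℕ) {J : ℕ} {EE : Type} (Del : Fin J → EE → ℤ) (π π' : Fin J → Option EE) (X : ℕ) (z : Fin X × Fin X) : ℝ :=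
  Fm (fa (rd s₁ s₂)) (D * D') l (cf s₁ s₂ D Del π π' ((rd s₁ s₂).1 * ((z.1 : ℕ) : ℤ) - (rd s₁ s₂).2 * ((z.2 : ℕ) : ℤ))) -
    fa (rd s₁ s₂) (cf s₁ s₂ D Del π π' ((rd s₁ s₂).1 * ((z.1 : ℕ) : ℤ) - (rd s₁ s₂).2 * ((z.2 : ℕ) : ℤ)))

theorem BU_abs (s₁ s₂ D D' l : ℕ) {J : ℕ} {EE : Type} (Del : Fin J → EE → ℤ) (π π' : Fin J → Option EE) (v : ℤ) :
    |Fm (fa (rd s₁ s₂)) (D * D') l (cf s₁ s₂ D Del π π' v) - fa (rd s₁ s₂) (cf s₁ s₂ D Del π π' v)| ≤ 1 := by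
  have h1 := Fm_bound (fa (rd s₁ s₂)) (fa_bound _) (D * D') l (cf s₁ s₂ D Del π π' v)
  have h2 := fa_bound (rd s₁ s₂) (cf s₁ s₂ D Del π π' v)
  exact abs_le.2 ⟨by linarith, by linarith⟩

/-- different ratios are nearly orthogonal -/
theorem MDU_ort (hORT : Pool.Agent.FR.ORT_stmt) (m D l l' X s₁ s₂ t₁ t₂ : ℕ) {J : ℕ} {EE : Type} (Del Del' : Fin J → EE → ℤ) (π π' ρ ρ' : Fin J → Option EE)
    (hs₁ : 1 ≤ s₁) (hs₂ : 1 ≤ s₂) (ht₁ : 1 ≤ t₁) (hsm₁ : s₁ ≤ m) (hsm₂ : s₂ ≤ m) (htm₁ : t₁ ≤ m) (htm₂ : t₂ ≤ m)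
    (hne : rd s₁ s₂ ≠ rd t₁ t₂) (hl : 1 ≤ l) (hX : 1 ≤ X) :
    |mean fun z : Fin X × Fin X => BU s₁ s₂ D (m ^ 2).factorial l Del π π' X z * BU t₁ t₂ D (m ^ 2).factorial l' Del' ρ ρ' X z| ≤ 4 * l * (m ^ 2).factorial * m / X := by
  obtain ⟨ha1, hb1⟩ := rd_pos s₁ s₂ hs₁ hs₂
  obtain ⟨ham, hbm⟩ := rd_le s₁ s₂ m hsm₁ hsm₂
  obtain ⟨ham', hbm'⟩ := rd_le t₁ t₂ m htm₁ htm₂
  have hdet : ((rd s₁ s₂).1 : ℤ) * (rd t₁ t₂).2 - (rd t₁ t₂).1 * (rd s₁ s₂).2 ≠ 0 := by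
    intro h0
    obtain ⟨h1, h2⟩ := EXC_cop _ _ _ _ ha1 (rd_cop s₁ s₂ hs₁) (rd_cop t₁ t₂ ht₁) h0
    exact hne (Prod.ext h1 h2)
  have hdvd := EXC_dvd _ _ _ _ m ham hbm ham' hbm' hdet
  have h1 := hORT (rd s₁ s₂).1 (rd s₁ s₂).2 (rd t₁ t₂).1 (rd t₁ t₂).2 m (m ^ 2).factorial l X
    (fun y => fa (rd s₁ s₂) (cf s₁ s₂ D Del π π' y))
    (fun y => Fm (fa (rd t₁ t₂)) (D * (m ^ 2).factorial) l' (cf t₁ t₂ D Del' ρ ρ' y) - fa (rd t₁ t₂) (cf t₁ t₂ D Del' ρ ρ' y))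
    ham hbm ham' hbm' hl hX (Nat.factorial_pos _) hdet hdvd
    (fun y => by
      have h2 := fa_bound (rd s₁ s₂) (cf s₁ s₂ D Del π π' y)
      exact abs_le.2 ⟨by linarith, h2.2⟩)
    (fun y => BU_abs t₁ t₂ D _ l' Del' ρ ρ' y)
  have e1 : (mean fun z : Fin X × Fin X => BU s₁ s₂ D (m ^ 2).factorial l Del π π' X z * BU t₁ t₂ D (m ^ 2).factorial l' Del' ρ ρ' X z) =
      -(mean fun z : Fin X × Fin X =>
        ((fun y => fa (rd s₁ s₂) (cf s₁ s₂ D Del π π' y)) (((rd s₁ s₂).1 : ℤ) * ((z.1 : ℕ) : ℤ) - ((rd s₁ s₂).2 : ℤ) * ((z.2 : ℕ) : ℤ)) -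
          mean fun k : Fin l => (fun y => fa (rd s₁ s₂) (cf s₁ s₂ D Del π π' y)) (((rd s₁ s₂).1 : ℤ) * ((z.1 : ℕ) : ℤ) - ((rd s₁ s₂).2 : ℤ) * ((z.2 : ℕ) : ℤ) + ((m ^ 2).factorial : ℕ) * ((k : ℕ) : ℤ))) *
        (fun y => Fm (fa (rd t₁ t₂)) (D * (m ^ 2).factorial) l' (cf t₁ t₂ D Del' ρ ρ' y) - fa (rd t₁ t₂) (cf t₁ t₂ D Del' ρ ρ' y))
          (((rd t₁ t₂).1 : ℤ) * ((z.1 : ℕ) : ℤ) - ((rd t₁ t₂).2 : ℤ) * ((z.2 : ℕ) : ℤ))) := by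
    rw [← neg_one_mul, ← PRJ_mul]
    congr 1
    funext z
    have e2 : Fm (fa (rd s₁ s₂)) (D * (m ^ 2).factorial) l (cf s₁ s₂ D Del π π' ((rd s₁ s₂).1 * ((z.1 : ℕ) : ℤ) - (rd s₁ s₂).2 * ((z.2 : ℕ) : ℤ))) =
        mean fun k : Fin l => fa (rd s₁ s₂) (cf s₁ s₂ D Del π π' (((rd s₁ s₂).1 : ℤ) * ((z.1 : ℕ) : ℤ) - ((rd s₁ s₂).2 : ℤ) * ((z.2 : ℕ) : ℤ) + ((m ^ 2).factorial : ℕ) * ((k : ℕ) : ℤ))) := by
      unfold Fm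
      congr 1
      funext k
      congr 1
      unfold cf
      push_cast
      ring
    unfold BU
    rw [e2]
    dsimp only
    ring
  rw [e1, abs_neg]
  refine h1.trans (le_of_eq ?_)
  ring

theorem MDU (hIDG : IDG_stmt) (hPLC : PLC_stmt) (hFCU : FCU_stmt) (hBAD : BAD_stmt) (hPIG : PIG_stmt) (hONE : ONE_stmt) (hORT : Pool.Agent.FR.ORT_stmt) : MDU_stmt := by
  classical
  intro k hk
  obtain ⟨t, ht⟩ : ∃ t : ℝ, t = 1 / 4000000 := ⟨_, rfl⟩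
  have ht0 : 0 < t := by rw [ht]; norm_num
  have ht1 : t ≤ 1 := by rw [ht]; norm_num
  obtain ⟨J, hJ1, hJ⟩ : ∃ J : ℕ, 1 ≤ J ∧ 2 * ((Fintype.card (Fin k × Fin k) : ℝ) + 1) * k ≤ t ^ 3 * J := by
    refine ⟨⌈2 * ((Fintype.card (Fin k × Fin k) : ℝ) + 1) * k / t ^ 3⌉₊ + 1, by omega, ?_⟩
    have h1 := Nat.le_ceil (2 * ((Fintype.card (Fin k × Fin k) : ℝ) + 1) * k / t ^ 3)
    rw [div_le_iff₀ (by positivity)] at h1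
    push_cast at h1 ⊢
    have h2 : 0 < t ^ 3 := by positivity
    nlinarith
  have hJ0 : (1 : ℝ) ≤ J := by exact_mod_cast hJ1
  obtain ⟨c₁, hc₁⟩ : ∃ c₁ : ℝ, c₁ = t ^ 3 / (J * Fintype.card (Fin k × Fin k) * (Fintype.card (Fin J → Option (Fin k × Fin k)) : ℝ) ^ 2) := ⟨_, rfl⟩
  have hkk : (1 : ℝ) ≤ Fintype.card (Fin k × Fin k) := by
    have : 1 ≤ Fintype.card (Fin k × Fin k) := by
      rw [Fintype.card_prod, Fintype.card_fin]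
      exact Nat.mul_pos hk hk
    exact_mod_cast this
  have hPP : (1 : ℝ) ≤ Fintype.card (Fin J → Option (Fin k × Fin k)) := by
    have : 1 ≤ Fintype.card (Fin J → Option (Fin k × Fin k)) := Fintype.card_pos
    exact_mod_cast this
  have hc₁0 : 0 < c₁ := by
    rw [hc₁]
    positivity
  have hc₁1 : c₁ ≤ 1 := by
    rw [hc₁, div_le_one (by positivity)]
    have h1 : t ^ 3 ≤ 1 := pow_le_one₀ ht0.le ht1
    have h2 : (1 : ℝ) ≤ (Fintype.card (Fin J → Option (Fin k × Fin k)) : ℝ) ^ 2 := one_le_pow₀ hPP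
    have h3 : (1 : ℝ) ≤ J * Fintype.card (Fin k × Fin k) := by nlinarith
    nlinarith
  refine ⟨c₁ / 4, by positivity, by linarith, fun ε hε hε1 N s hFam e he => ?_⟩
  obtain ⟨hs1, hinj, hbad, hdis⟩ := hFam
  obtain ⟨m, hm1, hm⟩ : ∃ m : ℕ, 1 ≤ m ∧ ∀ τ i, s τ i ≤ m := by
    refine ⟨1 + ∑ τ, ∑ i, s τ i, by omega, fun τ i => ?_⟩
    have h1 : s τ i ≤ ∑ i, s τ i := single_le_sum (f := fun i => s τ i) (fun _ _ => Nat.zero_le _) (mem_univ i)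
    have h2 : ∑ i, s τ i ≤ ∑ τ, ∑ i, s τ i := single_le_sum (f := fun τ => ∑ i, s τ i) (fun _ _ => Nat.zero_le _) (mem_univ τ)
    omega
  have hm0 : (0 : ℝ) < m := by exact_mod_cast hm1
  have hpq : ∀ τ, ∃ p q : Fin k × Fin k → Fin k, (∀ e, p e ≠ q e) ∧
      (∀ e, ¬ GoodS ε (rd (s τ (p e)) (s τ (q e))).1 (rd (s τ (p e)) (s τ (q e))).2) ∧ ∀ S : Finset (Fin k), (∀ e, ¬ (p e ∈ S ∧ q e ∈ S)) → 4 * #S ≤ k :=
    fun τ => MDU_pq hk ε (s τ) (hbad τ)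
  choose p q hpq1 hpq2 hpq3 using hpq
  obtain ⟨η₁, hη₁⟩ : ∃ η₁ : ℝ, η₁ = c₁ * ε / 48 := ⟨_, rfl⟩
  have hη₁0 : 0 < η₁ := by rw [hη₁]; positivity
  obtain ⟨e₁, he₁⟩ : ∃ e₁ : ℝ, e₁ = c₁ * ε / (36 * m) := ⟨_, rfl⟩
  have he₁0 : 0 < e₁ := by rw [he₁]; positivity
  have he₁m : 3 * m * e₁ = c₁ * ε / 12 := by
    rw [he₁]
    field_simp
    ring
  obtain ⟨δ, hδ⟩ : ∃ δ : ℝ, δ = min t (c₁ * ε / 12) := ⟨_, rfl⟩
  have hδ0 : 0 < δ := by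
    rw [hδ]
    exact lt_min ht0 (by positivity)
  have hδt : δ ≤ t := by
    rw [hδ]
    exact min_le_left _ _
  have hδc : δ ≤ c₁ * ε / 12 := by
    rw [hδ]
    exact min_le_right _ _
  -- the index set
  obtain ⟨G, w, T, P, hG1, hP1, hw1, -, hV⟩ := hIDG (Fin N × Lab J (Fin k × Fin k) k) (fun z => s z.1 z.2.2) η₁ hη₁0 (fun z => hs1 _ _)
  -- the cliques
  obtain ⟨k', X₀, hk'⟩ := hFCU G w δ hG1 hδ0 hw1
  obtain ⟨Q₀, hQ₀⟩ : ∃ Q₀ : ℕ, Q₀ = k'.factorial * ∏ γ, w γ := ⟨_, rfl⟩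
  have hQ₀1 : 1 ≤ Q₀ := by
    rw [hQ₀]
    exact Nat.mul_pos (Nat.factorial_pos _) (Finset.prod_pos fun γ _ => hw1 γ)
  have hQ₀k : ∀ p : ℕ, p.Prime → p ≤ k' → p ∣ Q₀ := by
    intro p hp hpk
    rw [hQ₀]
    exact (Nat.dvd_factorial hp.pos hpk).mul_right _
  have hQ₀w : ∀ γ, ∀ p : ℕ, p.Prime → p ∣ w γ → p ∣ Q₀ := by
    intro γ p hp hpw
    rw [hQ₀]
    exact (hpw.trans (Finset.dvd_prod_of_mem w (mem_univ γ))).mul_left _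
  -- the places
  have hplc : ∀ τ : Fin N, _ := fun τ => hPLC J (Fin k × Fin k) (fun i => fa (rd (s τ (p τ i)) (s τ (q τ i))))
    (fun i => ((rd (s τ (p τ i)) (s τ (q τ i))).1 : ℤ) - (rd (s τ (p τ i)) (s τ (q τ i))).2)
    (fun i => (rd (s τ (p τ i)) (s τ (q τ i))).1 * s τ (p τ i)) ε e₁ (Q₀ * P) hε hε1 he₁0 (Nat.mul_pos hQ₀1 hP1)
    (fun i => Nat.mul_pos (rd_pos _ _ (hs1 _ _) (hs1 _ _)).1 (hs1 _ _)) (fun i x => fa_bound _ _) (fun i => hBAD ε _ _ (hpq2 τ i))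
  choose Q hQ1 hQ2 hQ3 using hplc
  obtain ⟨D, hD⟩ : ∃ D : ℕ, D = Q₀ * P * ∏ τ, Q τ := ⟨_, rfl⟩
  have hD1 : 1 ≤ D := by
    rw [hD]
    exact Nat.mul_pos (Nat.mul_pos hQ₀1 hP1) (Finset.prod_pos fun τ _ => hQ1 τ)
  have hQD : ∀ τ, Q τ ∣ D := by
    intro τ
    rw [hD]
    exact (Finset.dvd_prod_of_mem Q (mem_univ τ)).mul_left _
  have hQ₀D : Q₀ ∣ D := by
    rw [hD, mul_assoc]
    exact dvd_mul_right _ _
  have hl : ∀ τ : Fin N, _ := fun τ => hQ3 τ D hD1 (hQD τ) (m ^ 2).factorial (Nat.factorial_pos _)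
  choose l hl1 hl2 using hl
  obtain ⟨X, hX₀, hX1, hXl⟩ : ∃ X : ℕ, X₀ ≤ X ∧ 1 ≤ X ∧ ∀ τ, 4 * (l τ : ℝ) * ((m ^ 2).factorial : ℕ) * m ≤ e * X := by
    refine ⟨X₀ + 1 + ⌈4 * ((∑ τ, l τ : ℕ) : ℝ) * ((m ^ 2).factorial : ℕ) * m / e⌉₊, by omega, by omega, fun τ => ?_⟩
    have h1 := Nat.le_ceil (4 * ((∑ τ, l τ : ℕ) : ℝ) * ((m ^ 2).factorial : ℕ) * m / e)
    rw [div_le_iff₀ he] at h1
    have h2 : l τ ≤ ∑ τ, l τ := single_le_sum (f := l) (fun _ _ => Nat.zero_le _) (mem_univ τ)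
    have h3 : (l τ : ℝ) ≤ ((∑ τ, l τ : ℕ) : ℝ) := by exact_mod_cast h2
    have h4 : 4 * (l τ : ℝ) * ((m ^ 2).factorial : ℕ) * m ≤ 4 * ((∑ τ, l τ : ℕ) : ℝ) * ((m ^ 2).factorial : ℕ) * m := by
      have h5 : (0 : ℝ) ≤ ((m ^ 2).factorial : ℕ) * m := by positivity
      nlinarith
    refine h4.trans (h1.trans ?_)
    push_cast
    have h6 : (0 : ℝ) ≤ (X₀ : ℝ) := Nat.cast_nonneg _
    nlinarith
  have hX0 : (0 : ℝ) < X := by exact_mod_cast hX1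
  have hDel : ∀ τ : Fin N, _ := fun τ => hl2 τ (m * X)
  choose Del hDel1 hDel2 using hDel
  have htr : ∀ τ (π : Fin J → Option (Fin k × Fin k)), ((Q₀ * P : ℕ) : ℤ) ∣ tr (Del τ) π := by
    intro τ π
    unfold tr
    refine Finset.dvd_sum fun j _ => ?_
    rcases π j with _ | i
    · exact dvd_zero _
    · exact hDel1 τ j i
  obtain ⟨o, ho1, ho2⟩ := hV (fun z => (s z.1 z.2.2 : ℤ) * tr (Del z.1) z.2.1) (Q₀ : ℤ) (fun z => by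
    have h1 := htr z.1 z.2.1
    push_cast at h1
    exact h1.mul_left _)
  obtain ⟨f, hf1, hf2, hf3⟩ := hk' Q₀ hQ₀1 hQ₀k hQ₀w D X (fun γ => 1 + o γ) hD1 hQ₀D hX₀ hX1 (fun γ => by
    obtain ⟨x, hx⟩ := ho1 γ
    refine ⟨1, -x, ?_⟩
    rw [hx]
    ring)
  have : Nonempty (Fin G) := ⟨⟨0, hG1⟩⟩
  have : Nonempty (Fin X) := ⟨⟨0, hX1⟩⟩
  -- the facing pairs
  have hpig : ∀ τ : Fin N, ∃ (j : Fin J) (i : Fin k × Fin k) (π π' : Fin J → Option (Fin k × Fin k)), Fc j i π π' ∧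
      c₁ ≤ mean fun φ => mean (f (T (τ, (π, p τ i)) φ)) * mean (f (T (τ, (π', q τ i)) φ)) := by
    intro τ
    rw [hc₁]
    exact hPIG k J (Fin k × Fin k) (p τ) (q τ) t G (fun φ => mean (f φ)) (fun x => T (τ, x)) hk hJ1 hG1 ht0 ht1
      (fun φ => ⟨PRJ_nonneg fun x => (hf1 φ x).1, PRJ_le_const fun x => (hf1 φ x).2⟩) (hpq3 τ) hJ (by
        refine le_trans ?_ hf2
        rw [ht] at hδt ⊢
        linarith)
  choose j i π π' hFc hcor using hpig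
  refine ⟨Fin G, Fin X, inferInstance, inferInstance, inferInstance, inferInstance, f,
    fun τ => (T (τ, (π' τ, q τ (i τ)))).symm.trans (T (τ, (π τ, p τ (i τ)))),
    fun τ => BU (s τ (p τ (i τ))) (s τ (q τ (i τ))) D (m ^ 2).factorial (l τ) (Del τ) (π τ) (π' τ) X, hf1,
    fun τ z => BU_abs _ _ _ _ _ _ _ _ _, fun τ => ?_, fun τ τ' hne => ?_⟩
  · obtain ⟨hFc1, hFc2, hFc3⟩ := hFc τ
    have h1 := hONE k J G X m D (m ^ 2).factorial (l τ) (Fin k × Fin k) (s τ) (p τ) (q τ) (Del τ) w o (fun x => T (τ, x)) f ε η₁ δ e₁ (i τ) (π τ) (π' τ)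
      hk hG1 hX1 hD1 (hl1 τ) hε hε1 hη₁0.le hδ0.le he₁0.le (fun a => ⟨hs1 τ a, hm τ a⟩) (hinj τ) (hpq1 τ) hw1 (fun z => ho2 (τ, z)) hf1 hf3
      (hDel2 τ (j τ) (i τ) (π τ) (π' τ) hFc1 hFc2 hFc3)
    have h2 : (mean fun φ => mean fun z : Fin X × Fin X => f (((T (τ, (π' τ, q τ (i τ)))).symm.trans (T (τ, (π τ, p τ (i τ))))) φ) z.1 * f φ z.2 *
        BU (s τ (p τ (i τ))) (s τ (q τ (i τ))) D (m ^ 2).factorial (l τ) (Del τ) (π τ) (π' τ) X z) =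
        mean fun φ => mean fun z : Fin X × Fin X => f (T (τ, (π τ, p τ (i τ))) φ) z.1 * f (T (τ, (π' τ, q τ (i τ))) φ) z.2 *
        BU (s τ (p τ (i τ))) (s τ (q τ (i τ))) D (m ^ 2).factorial (l τ) (Del τ) (π τ) (π' τ) X z := by
      unfold mean
      congr 1
      rw [← Equiv.sum_comp (T (τ, (π' τ, q τ (i τ))))]
      refine Finset.sum_congr rfl fun φ _ => ?_
      simp only [Equiv.trans_apply, Equiv.symm_apply_apply]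
    rw [h2]
    have h3 := hcor τ
    have h4 : ε / 2 * c₁ ≤ ε / 2 * mean fun φ => mean (f (T (τ, (π τ, p τ (i τ))) φ)) * mean (f (T (τ, (π' τ, q τ (i τ))) φ)) :=
      mul_le_mul_of_nonneg_left h3 (by linarith)
    refine le_trans ?_ h1
    rw [he₁m]
    have h5 : 4 * η₁ = c₁ * ε / 12 := by rw [hη₁]; ring
    rw [h5]
    linarith
  · have h1 := MDU_ort hORT m D (l τ) (l τ') X (s τ (p τ (i τ))) (s τ (q τ (i τ))) (s τ' (p τ' (i τ'))) (s τ' (q τ' (i τ'))) (Del τ) (Del τ') (π τ) (π' τ) (π τ') (π' τ')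
      (hs1 _ _) (hs1 _ _) (hs1 _ _) (hm _ _) (hm _ _) (hm _ _) (hm _ _) (hdis τ τ' _ _ _ _ hne (hpq1 _ _) (hpq1 _ _)) (hl1 τ) hX1
    refine h1.trans ?_
    rw [div_le_iff₀ hX0]
    exact hXl τ

end Pool.Agent.FP
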