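import Pool.Agent.helper76.FP.MDU
import Pool.Agent.helper85.FP.IDG
import Pool.Agent.helper69.FP.ONE
import Pool.Agent.helper72.FP.STL
import Pool.Agent.helper72.FP.FIN
import Pool.Agent.helper94.FP.COR
import Pool.Agent.helper23.FP.CLV
import Pool.Agent.helper23.FP.FCU
import Pool.Agent.helper99.FP.PLC
import Pool.Agent.helper65.FP.BAD
import Pool.Agent.helper53.FP.PIG
import Pool.Agent.helper54.FP.CNX
import Pool.Agent.helper51.FP.ENU
import Pool.Agent.helper76.DP.All2

/-!
# Project FP (MP_bf63dc_nt): at least `1 - ε` in every long interval, for more than `k/4` of any `k` coefficients, up to finitely many ratios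
-/

set_option autoImplicit false

namespace Pool.Agent.FP

/-- for every `k` and `ε` there is a set of at most `C/ε^4` ratios such that of any `k` different positive integers with all ratios outside it more than `k/4` have pairwise good quotients -/
theorem fin : FIN_stmt :=
  FIN (ENU (MDU IDG PLC (FCU Pool.Agent.AT.Q_all CLV Pool.Agent.DP.Z_FCP) BAD (PIG STL) (ONE COR CNX) Pool.Agent.FR.ORT) Pool.Agent.DP.CORE2)

end Pool.Agent.FP
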