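import Pool.Agent.helper76.DP.CORE2
import Pool.Agent.helper19.SK.MAIN

/-!
# Project FP (MP_bf63dc_nt, rows `fp:*`): AT LEAST `1 - ε` IN EVERY LONG INTERVAL, for more than `k/4` of any `k` coefficients, up to finitely many ratios

GOAL (unconditional). For every `k ≥ 1` there is `C` such that for every `0 < ε ≤ 1` there is a set `E` of at most `C/ε^4` ratios such that of ANY `k` different positive integers `s_i` with all ratios outside `E`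
more than `k/4` have pairwise `GoodS ε a b`, `a/b = s_j/s_i` in lowest terms: there is `D` such that in EVERY class inside `a - b + D ℤ` EVERY long interval contains at least the proportion `1 - ε` of true `c`.

PROOF. Let `N` tuples `s^τ` be given, all bad, with disjoint sets of ratios. Every tuple has a tree of far copies: labels `(π, i)`, `π : Fin J → Option EE` (`EE` = the bad pairs), `i` an index of the tuple; the translation of `π` is `X π = ∑_l Del l (π l)`. The labels `(π, i)`, `(π', j)` are FACING at the level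
`l` by the bad pair `e = (i, j)` if `π l = e`, `π' l` = none and `π = π'` above `l`. (STL) If the values `a` of the labels have mean `> 1/4` then some facing pair has a positive product. (PLC) The translations can be chosen such that for facing pairs the `c` lie in a place where the false `c` have local density `≥ ε/2`
along ALL progressions of a prescribed step in the class (extremality; moduli chosen from the top level down, translations from the bottom up). (IDG) a finite set of slopes `w_φ` and offsets `o_φ` with permutations `T_γ`, `γ` a label of some tuple: `w (T_γ φ) = s_i w φ`, `o (T_γ φ) = s_i o φ + s_i X π` for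
almost all `φ`. So for two labels of one tuple the `c` does not depend on `φ`. (FCU) The cliques give functions `A φ : Fin X → [0, 1]` with average `> 1/4` and almost no false pairs. So for every `τ` there is a facing pair `γ, γ'` such that `A (T_γ φ) ⊗ A (T_γ' φ)` correlates with (local density minus
indicator) of the false `c`: correlation `≥ c₀(k) ε`. These functions are almost orthogonal for different `τ`, so by CORE2 (landed) `N ≤ 32/(c₀ ε)^4`. A maximal family gives `E`.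

RULES. Row `XX`: file `Pool/Agent/<seat>/FP/XX.lean`, `import Pool.Agent.helper76.FP.Spec` (and Mathlib), `namespace Pool.Agent.FP`, `theorem XX (hYY : YY_stmt) ... : XX_stmt` (exact lines in the lock notes), auxiliary lemmas prefixed `XX_`. No `convert`, no `congr!`, no `native_decide`, no straight double quotes,
no `#` directly before a lower case letter. `#` is `Finset.card`; `mean f = (∑ x, f x)/card`.
-/

set_option autoImplicit false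

namespace Pool.Agent.FP

open Finset
open Pool.Agent.FR (mean)
open Pool.Agent.AT (Qk Pair)
open Pool.Agent.HF (Om TC)
open Pool.Agent.DP (Fm PrE CORE2_stmt)

/-! ## Definitions -/

/-- at least the proportion `1 - ε` in every long interval of every class inside `a - b + D ℤ`, for some `D` -/
def GoodS (ε : ℝ) (a b : ℕ) : Prop := Pool.Agent.SK.Dens (1 - ε) a b ((a : ℤ) - b)

/-- the reduced pair `(a, b)` with `a s = b t` -/
def rd (s t : ℕ) : ℕ × ℕ := (t / Nat.gcd s t, s / Nat.gcd s t)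

open Classical in
/-- `1` if `c` is not true for `r = (a, b)` -/
noncomputable def fa (r : ℕ × ℕ) (c : ℤ) : ℝ := if TC r.1 r.2 c then 0 else 1

/-- the labels: a path in the tree and an index of the tuple -/
abbrev Lab (J : ℕ) (EE : Type) (k : ℕ) : Type := (Fin J → Option EE) × Fin k

/-- the translation of a path -/
def tr {J : ℕ} {EE : Type} (Del : Fin J → EE → ℤ) (π : Fin J → Option EE) : ℤ := ∑ j, (π j).elim 0 (Del j)

/-- the paths `π`, `π'` are facing at the level `l` by `e` -/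
def Fc {J : ℕ} {EE : Type} (l : Fin J) (e : EE) (π π' : Fin J → Option EE) : Prop := π l = some e ∧ π' l = none ∧ ∀ l' : Fin J, l < l' → π l' = π' l'

/-! ## Part 1: pure rows -/

/-- **IDG** (medium; pure; a copy of Pool/Agent/helper38/DP/IDX.lean with an index type `ι` in the place of the set `R` and `(1, s i)` in the place of `r = (a, b)`). `𝒫` = the primes dividing an `s i`; `N` large; `W = 𝒫 → ZMod N`, `w_e = ∏ p^(e p)`, `K = (ι × W) → ZMod N`, `Γ = W × K`,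
`g_i (e, κ) = (e + v(s i), κ + 1_(i,e))`: a bijection. `P = ∏_i ∏_(e : W) s i w_e`. Given `V` with `Q P ∣ V i`: `o_(e,κ) = ∑_(i,v) κ(i, v) w_e (V i/(s i w_v))`, a multiple of `Q`. If `e p + v_p(s i) < N` for all `p` and `κ(i, e) ≠ -1` then with `(e', κ') = g_i (e, κ)`: `w_e' = s i w_e`, and
`o_(e',κ') = w_e' ∑ κ'(..).. = s i o_(e,κ) + w_e' V i/(s i w_e) = s i o + V i`. -/
def IDG_stmt : Prop := ∀ (ι : Type) [Fintype ι] (s : ι → ℕ) (η : ℝ), 0 < η → (∀ i, 1 ≤ s i) →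
  ∃ (G : ℕ) (w : Fin G → ℕ) (g : ι → Equiv.Perm (Fin G)) (P : ℕ), 1 ≤ G ∧ 1 ≤ P ∧ (∀ γ, 1 ≤ w γ) ∧ (∀ γ, ∀ p : ℕ, p.Prime → p ∣ w γ → ∃ i, p ∣ s i) ∧
    ∀ (V : ι → ℤ) (Q : ℤ), (∀ i, Q * P ∣ V i) → ∃ o : Fin G → ℤ, (∀ γ, Q ∣ o γ) ∧ ∀ i,
      (#{γ | ¬ (w (g i γ) = s i * w γ ∧ o (g i γ) = s i * o γ + V i)} : ℝ) ≤ η * G

open Classical in
/-- **STL** (medium; pure; helper72; the star lemma, linear form). Clusters of the level `l`: the digits at the levels `≥ l` are fixed. `M_i(C)` = the maximum of `a` over the labels `(π, i)`, `π` in `C`; `F_l` = the mean over the clusters of the level `l` of `∑_i M_i`. `F_0 = k mean a`, `F` is nondecreasing (max ≥ mean of the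
maxima of the subclusters), `F_J ≤ k`: for some `l < J`, `F_(l+1) - F_l ≤ k/J`. For a cluster `G` of the level `l + 1` let `g` be `∑_i M_i(G)` minus the mean over its `#EE + 1` subclusters `C` of `∑_i M_i(C)`: so `M_i(G) - M_i(C) ≤ (#EE + 1) g`. For `e` : the maxima of `C_e` (index `p e`) and of `C_none` (index `q e`)
are attained at a facing pair at the level `l`, so `M_(p e)(G) M_(q e)(G) ≤ π_G + 2 (#EE + 1) g`, `π_G` = the sum over the facing pairs in `G` at the level `l`. If the right side is `< t^2` then `S = {i : M_i(G) ≥ t}` contains no `p e, q e` together, so `∑_i M_i(G) ≤ k/4 + k t`; otherwise `∑_i M_i(G) ≤ k ≤ k (right side)/t^2`.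
Mean over `G`: `k mean a ≤ F_(l+1) ≤ k/4 + k t + (k/t^2) (sum of all facing products + 2 (#EE + 1) k/J)`. -/
def STL_stmt : Prop := ∀ (J k : ℕ) (EE : Type) [Fintype EE] (p q : EE → Fin k) (a : (Fin J → Option EE) × Fin k → ℝ) (t : ℝ), 1 ≤ J → 1 ≤ k → 0 < t → (∀ z, 0 ≤ a z ∧ a z ≤ 1) →
  (∀ S : Finset (Fin k), (∀ e, ¬ (p e ∈ S ∧ q e ∈ S)) → 4 * #S ≤ k) →
  mean a ≤ 1 / 4 + t + (t ^ 2)⁻¹ * ((∑ l, ∑ e, ∑ π, ∑ π', if Fc l e π π' then a (π, p e) * a (π', q e) else 0) + 2 * (Fintype.card EE + 1) * k / J)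

open Classical in
/-- **PLC** (medium-long; pure; helper99; moduli from the top level down, translations from the bottom up, extremality). -/
def PLC_stmt : Prop := ∀ (J : ℕ) (EE : Type) [Fintype EE] (f : EE → ℤ → ℝ) (c : EE → ℤ) (L : EE → ℕ) (ε e₁ : ℝ) (D₀ : ℕ), 0 < ε → ε ≤ 1 → 0 < e₁ → 1 ≤ D₀ → (∀ i, 1 ≤ L i) → (∀ i x, 0 ≤ f i x ∧ f i x ≤ 1) →
  (∀ i, ∀ D : ℕ, 1 ≤ D → ∃ q : ℕ, 1 ≤ q ∧ D ∣ q ∧ ∀ M₀ : ℕ, ∃ M : ℕ, M₀ ≤ M ∧ ∃ y : ℤ, (D : ℤ) ∣ y - c i ∧ ε * M ≤ ∑ k ∈ range M, f i (y + q * (k : ℕ))) →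
  ∃ Q : ℕ, 1 ≤ Q ∧ D₀ ∣ Q ∧ ∀ D : ℕ, 1 ≤ D → Q ∣ D → ∀ D' : ℕ, 1 ≤ D' → ∃ l : ℕ, 1 ≤ l ∧ ∀ H : ℕ, ∃ Del : Fin J → EE → ℤ, (∀ j i, (D₀ : ℤ) ∣ Del j i) ∧
    ∀ (j : Fin J) (i : EE) (π π' : Fin J → Option EE), π j = some i → π' j = none → (∀ j', j < j' → π j' = π' j') →
      (#{y ∈ Icc (-(H : ℤ)) H | Fm (f i) (D * D') l (c i + L i * (tr Del π - tr Del π') + D * y) < ε / 2} : ℝ) ≤ e₁ * (2 * H + 1)

/-! ## Part 2: the cliques -/

open Classical in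
/-- **CLV** (medium; model Pool/Agent/helper8/DP/CLX.lean, `CLX_fix`, which is nearly this: one type for every coordinate, `K` replaced by `X`). `k = n c`, `C, δ'` from `Qk k`, `X₀` with `C X^(-δ') ≤ η` for `X ≥ X₀`. The `F` of `Qk k`: `F_(m,χ) = {(sl χ, h χ + D' u) : u < X}`, `#F = X` (`D' ≥ 1`). All tuples are admissible (`CLZ_adm` with `D`:
all constants are congruent to `h χ` modulo `D`, so prime to `D`; primes not dividing `D` are `> k` and divide no slope). `Many` gives `J` (`CLZ_J`), different forms of `J` satisfy `Pair` (PRT). -/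
def CLV_stmt : Prop := (∀ k : ℕ, 1 ≤ k → Qk k) → ∀ (c n : ℕ) (sl : Fin c → ℕ) (η : ℝ), 1 ≤ c → 1 ≤ n → 0 < η → (∀ χ, 1 ≤ sl χ) → ∃ X₀ : ℕ, 1 ≤ X₀ ∧ ∀ D : ℕ, 1 ≤ D → (∀ p : ℕ, p.Prime → p ≤ n * c → p ∣ D) →
  (∀ χ, ∀ p : ℕ, p.Prime → p ∣ sl χ → p ∣ D) → ∀ (X D' : ℕ) (h : Fin c → ℤ), X₀ ≤ X → 1 ≤ D' → D ∣ D' → (∀ χ, IsCoprime (h χ) (D : ℤ)) →
  (#{ω : Om n c X | ¬ ∃ J : Finset (Fin n × Fin c), (1 / 4 + 1 / 500000) * ((n : ℝ) * c) ≤ #J ∧
    ∀ z ∈ J, ∀ z' ∈ J, PrE (sl z.2, h z.2 + (D' : ℤ) * ((ω z.1 z.2 : ℕ) : ℤ)) (sl z'.2, h z'.2 + (D' : ℤ) * ((ω z'.1 z'.2 : ℕ) : ℤ))} : ℝ) ≤ η * (X : ℝ) ^ (n * c)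

open Classical in
/-- **FCU** (short-medium; from CLV and FCP of Pool/Agent/helper76/DK/Defs.lean; model Pool/Agent/helper76/DP/FCR.lean without the clusters). FCP with `b = c = G`, `π = id`, `ε = δ` (or `min δ 1`), gives `n, η`; `k = n G`; `X₀` from CLV; `E β β' u v` = the predicate `PrE`; the third property of `J` in FCP is trivial (`π = id`); FCP for `R = X`, `α = 1/4 + 1/500000`
gives `a`; `f γ x = a γ x`. Divide by `G X` and `X^2`. -/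
def FCU_stmt : Prop := ∀ (G : ℕ) (w : Fin G → ℕ) (δ : ℝ), 1 ≤ G → 0 < δ → (∀ γ, 1 ≤ w γ) → ∃ k X₀ : ℕ, ∀ Q : ℕ, 1 ≤ Q → (∀ p : ℕ, p.Prime → p ≤ k → p ∣ Q) → (∀ γ, ∀ p : ℕ, p.Prime → p ∣ w γ → p ∣ Q) →
  ∀ (D X : ℕ) (h : Fin G → ℤ), 1 ≤ D → Q ∣ D → X₀ ≤ X → 1 ≤ X → (∀ γ, IsCoprime (h γ) (Q : ℤ)) → ∃ f : Fin G → Fin X → ℝ, (∀ γ x, 0 ≤ f γ x ∧ f γ x ≤ 1) ∧
    1 / 4 + 1 / 500000 - δ ≤ (mean fun γ => mean (f γ)) ∧
    ∀ γ γ', γ ≠ γ' → (mean fun z : Fin X × Fin X => if PrE (w γ, h γ + (D : ℤ) * ((z.1 : ℕ) : ℤ)) (w γ', h γ' + (D : ℤ) * ((z.2 : ℕ) : ℤ)) then 0 else f γ z.1 * f γ' z.2) ≤ δ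

/-! ## Part 3: one pair of labels -/

open Classical in
/-- **BAD** (short). The negation of `GoodS`: for every `D ≥ 1` there is `q ≥ 1`, `D ∣ q`, such that for every `M₀` there are `M ≥ M₀` and `y` with `D ∣ y - (a - b)` and fewer than `(1 - ε) M` true numbers among `y + q k`, `k < M`; the sum of `fa` is `M` minus this number. (`Dens` of Pool/Agent/helper19/SK/MAIN.lean counts with
`cz` of Pool/Agent/helper19/HF: unfold.) -/
def BAD_stmt : Prop := ∀ (ε : ℝ) (a b : ℕ), ¬ GoodS ε a b → ∀ D : ℕ, 1 ≤ D → ∃ q : ℕ, 1 ≤ q ∧ D ∣ q ∧ ∀ M₀ : ℕ, ∃ M : ℕ, M₀ ≤ M ∧ ∃ y : ℤ, (D : ℤ) ∣ y - ((a : ℤ) - b) ∧ ε * M ≤ ∑ k ∈ range M, fa (a, b) (y + q * (k : ℕ))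

open Classical in
/-- **CNX** (short; pure). For given `y` at most `X` pairs `(u, u')` have `a u - b u' = y` (`a ≥ 1`: `u` is determined by `u'`), and `|a u - b u'| ≤ m X`. So the number of the pairs is at most `X` times the number of the `y ∈ [-m X, m X]` with the property, at most `X e₁ (2 m X + 1) ≤ 3 m e₁ X^2`. -/
def CNX_stmt : Prop := ∀ (a b m X : ℕ) (e₁ : ℝ) (S : ℤ → Prop), 1 ≤ a → 1 ≤ b → a ≤ m → b ≤ m → 1 ≤ X → 0 ≤ e₁ → (#{y ∈ Icc (-((m * X : ℕ) : ℤ)) (m * X : ℕ) | S y} : ℝ) ≤ e₁ * (2 * (m * X : ℕ) + 1) →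
  (mean fun z : Fin X × Fin X => if S ((a : ℤ) * ((z.1 : ℕ) : ℤ) - b * ((z.2 : ℕ) : ℤ)) then (1 : ℝ) else 0) ≤ 3 * m * e₁

open Classical in
/-- **COR** (short; pure). `A A' B = A A' F - A A' f ≥ A A' (ε/2) - 1_(F < ε/2) - A A' f` (`0 ≤ A, A', F ≤ 1`, `ε ≤ 1`), take means; `mean (A A') = mean A mean A'`. -/
def COR_stmt : Prop := ∀ (X : ℕ) (A A' : Fin X → ℝ) (F f : Fin X × Fin X → ℝ) (ε x y : ℝ), 1 ≤ X → 0 < ε → ε ≤ 1 → (∀ u, 0 ≤ A u ∧ A u ≤ 1) → (∀ u, 0 ≤ A' u ∧ A' u ≤ 1) → (∀ z, 0 ≤ F z ∧ F z ≤ 1) →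
  (mean fun z => if F z < ε / 2 then (1 : ℝ) else 0) ≤ x → (mean fun z : Fin X × Fin X => A z.1 * A' z.2 * f z) ≤ y →
  ε / 2 * (mean A * mean A') - x - y ≤ mean fun z : Fin X × Fin X => A z.1 * A' z.2 * (F z - f z)

open Classical in
/-- **PIG** (short-medium; pure; from STL). `T x` are permutations, so the mean over `φ` of `mean_x α (T x φ)` is the mean of `α`, `≥ 1/4 + 7 t`. STL for every `φ` (`a x = α (T x φ)`), mean over `φ`; `2 (#EE + 1) k/J ≤ t^3`: the mean over `φ` of the sum over all `j, e, π, π'` with `Fc` is `≥ 5 t^3 ≥ t^3`, and the sum has at most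
`J (#EE) (#paths)^2` terms: one of them is at least `t^3/(J (#EE) (#paths)^2)`. -/
def PIG_stmt : Prop := ∀ (k J : ℕ) (EE : Type) [Fintype EE] (p q : EE → Fin k) (t : ℝ) (G : ℕ) (α : Fin G → ℝ) (T : Lab J EE k → Equiv.Perm (Fin G)), 1 ≤ k → 1 ≤ J → 1 ≤ G → 0 < t → t ≤ 1 → (∀ φ, 0 ≤ α φ ∧ α φ ≤ 1) →
  (∀ S : Finset (Fin k), (∀ e, ¬ (p e ∈ S ∧ q e ∈ S)) → 4 * #S ≤ k) → 2 * (Fintype.card EE + 1) * k ≤ t ^ 3 * J → 1 / 4 + 7 * t ≤ mean α →
  ∃ (j : Fin J) (e : EE) (π π' : Fin J → Option EE), Fc j e π π' ∧ t ^ 3 / (J * Fintype.card EE * (Fintype.card (Fin J → Option EE) : ℝ) ^ 2) ≤ mean fun φ => α (T (π, p e) φ) * α (T (π', q e) φ)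

/-- the `c` at the point `v` for the facing paths `π`, `π'` and the pair `e` of indices with the slopes `s₁`, `s₂` -/
def cf {J : ℕ} {EE : Type} (s₁ s₂ D : ℕ) (Del : Fin J → EE → ℤ) (π π' : Fin J → Option EE) (v : ℤ) : ℤ :=
  (((rd s₁ s₂).1 : ℤ) - (rd s₁ s₂).2) + ((rd s₁ s₂).1 * s₁ : ℕ) * (tr Del π - tr Del π') + D * v

open Classical in
/-- **ONE** (medium; from COR, CNX; `MO_tc` of Pool/Agent/helper76/DP/MO1.lean). Everything for one tuple `s` and one facing pair `(π, i)`, `(π', i')`, `i = p e`, `i' = q e`, `(a, b) = rd (s i) (s i')` (coprime, `a s_i = b s_i'`, both `≤ m`). For the `φ` with both relations (all but `2 η G`): `w (T φ) = s_i w φ ≠ w (T' φ)`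
(`T = T (π, i)`, `T' = T (π', i')`), the constants `h = 1 + o (T φ) + D u`, `h' = 1 + o (T' φ) + D u'` have `a h - b h' = (a - b) + a s_i (X π - X π') + D (a u - b u') = cf .. (a u - b u')` (`a o (T φ) - b o (T' φ) = (a s_i - b s_i') o φ + a s_i X π - b s_i' X π'`). If `PrE` holds the forms are
different (slopes), so `Pair`, so `TC a b (a h - b h')` (`MO_tc`): `fa = 0`. So `mean A A' fa ≤ δ`; COR and CNX for this `φ` (`A = f (T φ)`, `A' = f (T' φ)`); for the other `φ` the mean is `≥ -1 ≥ ε/2 mean A mean A' - 2`. Mean over `φ`. -/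
def ONE_stmt : Prop := ∀ (k J G X m D D' l : ℕ) (EE : Type) [Fintype EE] (s : Fin k → ℕ) (p q : EE → Fin k) (Del : Fin J → EE → ℤ) (w : Fin G → ℕ) (o : Fin G → ℤ) (T : Lab J EE k → Equiv.Perm (Fin G)) (f : Fin G → Fin X → ℝ) (ε η δ e₁ : ℝ)
  (e : EE) (π π' : Fin J → Option EE), 1 ≤ k → 1 ≤ G → 1 ≤ X → 1 ≤ D → 1 ≤ l → 0 < ε → ε ≤ 1 → 0 ≤ η → 0 ≤ δ → 0 ≤ e₁ → (∀ i, 1 ≤ s i ∧ s i ≤ m) → Function.Injective s → (∀ e, p e ≠ q e) → (∀ γ, 1 ≤ w γ) →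
  (∀ z : Lab J EE k, (#{γ | ¬ (w (T z γ) = s z.2 * w γ ∧ o (T z γ) = s z.2 * o γ + s z.2 * tr Del z.1)} : ℝ) ≤ η * G) → (∀ γ u, 0 ≤ f γ u ∧ f γ u ≤ 1) →
  (∀ γ γ', γ ≠ γ' → (mean fun z : Fin X × Fin X => if PrE (w γ, 1 + o γ + (D : ℤ) * ((z.1 : ℕ) : ℤ)) (w γ', 1 + o γ' + (D : ℤ) * ((z.2 : ℕ) : ℤ)) then 0 else f γ z.1 * f γ' z.2) ≤ δ) →
  (#{v ∈ Icc (-((m * X : ℕ) : ℤ)) (m * X : ℕ) | Fm (fa (rd (s (p e)) (s (q e)))) (D * D') l (cf (s (p e)) (s (q e)) D Del π π' v) < ε / 2} : ℝ) ≤ e₁ * (2 * (m * X : ℕ) + 1) →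
  ε / 2 * (mean fun φ => mean (f (T (π, p e) φ)) * mean (f (T (π', q e) φ))) - 3 * m * e₁ - δ - 4 * η ≤
    mean fun φ => mean fun z : Fin X × Fin X => f (T (π, p e) φ) z.1 * f (T (π', q e) φ) z.2 *
      (Fm (fa (rd (s (p e)) (s (q e)))) (D * D') l (cf (s (p e)) (s (q e)) D Del π π' ((rd (s (p e)) (s (q e))).1 * ((z.1 : ℕ) : ℤ) - (rd (s (p e)) (s (q e))).2 * ((z.2 : ℕ) : ℤ))) -
        fa (rd (s (p e)) (s (q e))) (cf (s (p e)) (s (q e)) D Del π π' ((rd (s (p e)) (s (q e))).1 * ((z.1 : ℕ) : ℤ) - (rd (s (p e)) (s (q e))).2 * ((z.2 : ℕ) : ℤ))))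

/-! ## Part 4: assembly -/

/-- every set of more than `k/4` indices contains a bad pair -/
def BadT {k : ℕ} (ε : ℝ) (s : Fin k → ℕ) : Prop := ∀ S : Finset (Fin k), k < 4 * #S → ∃ i ∈ S, ∃ j ∈ S, i ≠ j ∧ ¬ GoodS ε (rd (s i) (s j)).1 (rd (s i) (s j)).2

/-- a family of bad tuples with disjoint sets of ratios -/
def Fam {k : ℕ} (ε : ℝ) (N : ℕ) (s : Fin N → Fin k → ℕ) : Prop := (∀ τ i, 1 ≤ s τ i) ∧ (∀ τ, Function.Injective (s τ)) ∧ (∀ τ, BadT ε (s τ)) ∧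
  ∀ τ τ' i j i' j', τ ≠ τ' → i ≠ j → i' ≠ j' → rd (s τ i) (s τ j) ≠ rd (s τ' i') (s τ' j')

/-- the data of the counting argument -/
def DataU (N : ℕ) (c e : ℝ) : Prop := ∃ (Φ Ξ : Type) (_ : Fintype Φ) (_ : Fintype Ξ) (_ : Nonempty Φ) (_ : Nonempty Ξ) (A : Φ → Ξ → ℝ) (g : Fin N → Equiv.Perm Φ) (B : Fin N → Ξ × Ξ → ℝ),
  (∀ φ x, 0 ≤ A φ x ∧ A φ x ≤ 1) ∧ (∀ τ z, |B τ z| ≤ 1) ∧ (∀ τ, c ≤ mean fun φ => mean fun z : Ξ × Ξ => A (g τ φ) z.1 * A φ z.2 * B τ z) ∧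
  ∀ τ τ', τ ≠ τ' → |mean fun z => B τ z * B τ' z| ≤ e

/-- **MDU** (long; helper76; from IDG, STL, PLC, FCU, BAD, PIG, ONE, ORT). -/
def MDU_stmt : Prop := ∀ k : ℕ, 1 ≤ k → ∃ c₀ : ℝ, 0 < c₀ ∧ c₀ ≤ 1 ∧ ∀ ε : ℝ, 0 < ε → ε ≤ 1 → ∀ (N : ℕ) (s : Fin N → Fin k → ℕ), Fam ε N s → ∀ e : ℝ, 0 < e → DataU N (c₀ * ε) e

/-- **ENU** (short; from MDU, CORE2). CORE2 with `R = univ`, `c = c₀ ε`, `δ = 1/(N + 1)`, `B^2 ≤ 1`: `N ≤ 32/(c₀ ε)^4`. -/
def ENU_stmt : Prop := ∀ k : ℕ, 1 ≤ k → ∃ C : ℝ, 0 < C ∧ ∀ ε : ℝ, 0 < ε → ε ≤ 1 → ∀ (N : ℕ) (s : Fin N → Fin k → ℕ), Fam ε N s → (N : ℝ) ≤ C / ε ^ 4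

/-- **FIN** (short-medium; helper72; from ENU). By ENU there is a family with a maximal `N` (the empty family, `N = 0`, is one). `E` = the set of all `rd (s τ i) (s τ j)`, `i ≠ j`: at most `N k^2 ≤ k^2 C/ε^4`. If a tuple `s` with all ratios outside `E` were bad, it could be added (`Fin.cons`). -/
def FIN_stmt : Prop := ∀ k : ℕ, 1 ≤ k → ∃ C : ℝ, 0 < C ∧ ∀ ε : ℝ, 0 < ε → ε ≤ 1 → ∃ E : Finset (ℕ × ℕ), (#E : ℝ) ≤ C / ε ^ 4 ∧ ∀ s : Fin k → ℕ, (∀ i, 1 ≤ s i) → Function.Injective s →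
  (∀ i j, i ≠ j → rd (s i) (s j) ∉ E) → ∃ S : Finset (Fin k), k < 4 * #S ∧ ∀ i ∈ S, ∀ j ∈ S, i ≠ j → GoodS ε (rd (s i) (s j)).1 (rd (s i) (s j)).2

end Pool.Agent.FP
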